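import Mathlib
import Pool.Agent.TH888.R.Base
import Pool.Agent.H447R2.ML.Spec
import Pool.Agent.H473R4.Count

set_option autoImplicit false

/-!
# Generalized Wagstaff numbers in a fixed base: the law for almost every amplitude

For an integer base `b ≥ 2`, a real `β > 0` and a prime `p` let `W b β p` be the `p`-rough part (the
product, with multiplicity, of the prime factors larger than `p`) of `⌊β b ^ p⌋ + 1`.  At the amplitude
`β = 1 / (b + 1)` this is the number `Q (b, p) = (b ^ p + 1) / (b + 1)` itself, for odd `p` prime to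
`b + 1`.  For a set `S` let `M S b β n` be the number of primes `p ≤ n` in `S` with `W b β p` prime,
and let `V S n` be the sum of `log p / p` over the primes `p ≤ n` in `S`.

We prove for almost every `β > 0`, simultaneously for all bases `b ≥ 2`, that the number of primes
`p ≤ n` with `W b β p` prime is `(e ^ γ / log b) log n + O((log n) ^ (1/2) (log log n) ^ (5/2))`;
and for every sequence `S 0, S 1, …` of sets and almost every `β > 0`, simultaneously for all bases
and all `i`, that `W b β p` is prime for infinitely many primes `p` in `S i` if and only if `V (S i)`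
is unbounded, and that in this case
`M (S i) b β n = (e ^ γ / log b) V + O((V L) ^ (1/2) (log (V L)) ^ 2)`, `V = V (S i) n`,
`L = log log n`.
-/

namespace Pool.Agent.Results.MP_ce8d0c_nt.FixedBases

open Filter Topology MeasureTheory Asymptotics

/-- The product, with multiplicity, of the prime factors of `m` that are larger than `p`. -/
def roughPart (p m : ℕ) : ℕ := (m.primeFactorsList.filter (fun r => p < r)).prod

/-- The `p`-rough part of `⌊β b ^ p⌋ + 1`. -/
noncomputable def W (b : ℕ) (β : ℝ) (p : ℕ) : ℕ := roughPart p (⌊β * (b : ℝ) ^ p⌋₊ + 1)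

open Classical in
/-- The number of primes `p ≤ n` in the set `S` for which `W b β p` is prime. -/
noncomputable def M (S : Set ℕ) (b : ℕ) (β : ℝ) (n : ℕ) : ℕ :=
  ((Finset.range (n + 1)).filter (fun p => p.Prime ∧ p ∈ S ∧ (W b β p).Prime)).card

open Classical in
/-- The number of odd `m ≤ n` in the set `S` for which `(b ^ m + 1) / (b + 1)` is prime. -/
noncomputable def count (S : Set ℕ) (b n : ℕ) : ℕ :=
  ((Finset.range (n + 1)).filter
    (fun m => Odd m ∧ m ∈ S ∧ ((b ^ m + 1) / (b + 1)).Prime)).card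

open Classical in
/-- The sum of `log p / p` over the primes `p ≤ n` in the set `S`. -/
noncomputable def V (S : Set ℕ) (n : ℕ) : ℝ :=
  ∑ p ∈ (Finset.range (n + 1)).filter (fun p => p.Prime ∧ p ∈ S), Real.log p / p

/-- The special amplitude. -/
lemma special {b : ℕ} (hb : 2 ≤ b) {p : ℕ} (hp : p.Prime) (hp2 : p ≠ 2) (hpd : ¬ p ∣ b + 1) :
    W b (1 / ((b : ℝ) + 1)) p * (b + 1) = b ^ p + 1 := by
  have hodd : Odd p := hp.odd_of_ne_two hp2
  obtain ⟨M, hM⟩ : b + 1 ∣ b ^ p + 1 := by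
    have := hodd.nat_add_dvd_pow_add_pow b 1
    rwa [one_pow] at this
  have hMr : ((M : ℝ)) * (b + 1) = (b : ℝ) ^ p + 1 := by
    have : ((b : ℝ) ^ p + 1) = (((b ^ p + 1 : ℕ)) : ℝ) := by push_cast; ring
    rw [this, hM]
    push_cast; ring
  have hb0 : (0 : ℝ) < (b : ℝ) + 1 := by positivity
  have hb2 : (2 : ℝ) ≤ b := by exact_mod_cast hb
  have hM0 : 1 ≤ M := by
    rcases Nat.eq_zero_or_pos M with h | h
    · rw [h] at hM
      simp at hM
    · exact h
  have hfl : ⌊1 / ((b : ℝ) + 1) * (b : ℝ) ^ p⌋₊ + 1 = M := by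
    have h0 : ⌊1 / ((b : ℝ) + 1) * (b : ℝ) ^ p⌋₊ = M - 1 := by
      rw [Nat.floor_eq_iff (by positivity), Nat.cast_sub hM0, Nat.cast_one]
      have e : 1 / ((b : ℝ) + 1) * (b : ℝ) ^ p = M - 1 / ((b : ℝ) + 1) := by
        field_simp
        linarith
      rw [e]
      have h1 : 1 / ((b : ℝ) + 1) < 1 := by
        rw [div_lt_one hb0]; linarith
      have h2 : 0 < 1 / ((b : ℝ) + 1) := by positivity
      constructor <;> linarith
    omega
  have hr := Pool.Agent.H447R2.ML.rough_quot (a := (b : ℤ)) (b := -1)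
    (IsCoprime.neg_right isCoprime_one_right) (by omega) (by omega) hp
    (by
      intro h
      apply hpd
      have : ((p : ℕ) : ℤ) ∣ ((b + 1 : ℕ) : ℤ) := by push_cast; simpa using h
      exact_mod_cast this) (x := (M : ℝ)) (by
        push_cast
        rw [hodd.neg_one_pow]
        have hne : (b : ℝ) - -1 ≠ 0 := by linarith
        field_simp
        linarith)
  rw [Nat.floor_natCast] at hr
  have hgeom : (∑ i ∈ Finset.range p, (b : ℤ) ^ i * (-1) ^ (p - 1 - i)) * ((b : ℤ) - -1) =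
      (b : ℤ) ^ p - (-1) ^ p := (Commute.all (b : ℤ) (-1)).geom_sum₂_mul p
  rw [← hr, hodd.neg_one_pow] at hgeom
  unfold W
  rw [hfl]
  have h4 : ((roughPart p M : ℕ) : ℤ) * ((b : ℤ) + 1) = (b : ℤ) ^ p + 1 := by
    have h5 : (roughPart p M : ℤ) = (Pool.Agent.H305R2.roughPart p M : ℤ) := rfl
    rw [h5]
    linarith
  exact_mod_cast h4

lemma floor_succ {v : ℝ} (hv : 0 ≤ v) : ⌊v + 1⌋₊ = ⌊v⌋₊ + 1 := by
  exact_mod_cast Nat.floor_add_natCast hv 1

lemma V_eq (S : Set ℕ) : V S = Pool.Agent.TH888.R.VS S := by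
  classical
  funext n
  unfold V Pool.Agent.TH888.R.VS
  rw [Finset.sum_filter]
  refine Finset.sum_congr rfl fun p _ => ?_
  by_cases h : p.Prime ∧ p ∈ S
  · rw [if_pos h, if_pos ⟨h.2, h.1⟩]
    rfl
  · rw [if_neg h, if_neg fun h1 => h ⟨h1.2, h1.1⟩]

lemma M_eq (S : Set ℕ) (b : ℕ) {β : ℝ} (hβ : 0 < β) (n : ℕ) : M S b β n =
    Pool.Agent.TH888.R.cS S (fun p => ⌊β * (b : ℝ) ^ p + 1⌋₊) n := by
  classical
  have e : ∀ p : ℕ, ⌊β * (b : ℝ) ^ p + 1⌋₊ = ⌊β * (b : ℝ) ^ p⌋₊ + 1 := fun p =>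
    floor_succ (by positivity)
  unfold M Pool.Agent.TH888.R.cS W
  simp only [e]
  rfl

lemma card_le_of_eventually {s t : ℕ → Prop} [DecidablePred s] [DecidablePred t] (D : ℕ)
    (h : ∀ p, D < p → s p → t p) (n : ℕ) :
    (((Finset.range (n + 1)).filter s).card : ℝ) ≤ (((Finset.range (n + 1)).filter t).card : ℝ) +
      (D + 1 : ℕ) := by
  have h1 : (Finset.range (n + 1)).filter s ⊆ (Finset.range (n + 1)).filter t ∪ Finset.range (D + 1) := by
    intro p hp
    rw [Finset.mem_filter] at hp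
    rw [Finset.mem_union, Finset.mem_filter]
    by_cases hD : D < p
    · exact Or.inl ⟨hp.1, h p hD hp.2⟩
    · exact Or.inr (Finset.mem_range.2 (by omega))
  have h2 := (Finset.card_le_card h1).trans (Finset.card_union_le _ _)
  rw [Finset.card_range] at h2
  exact_mod_cast h2

/-- the two counting functions differ by a bounded amount -/
lemma count_close {b : ℕ} (hb : 2 ≤ b) (S : Set ℕ) :
    ∃ D : ℝ, ∀ n : ℕ, |(M S b (1 / ((b : ℝ) + 1)) n : ℝ) - count S b n| ≤ D := by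
  classical
  have key : ∀ p : ℕ, b + 2 < p → p.Prime →
      ((W b (1 / ((b : ℝ) + 1)) p).Prime ↔ ((b ^ p + 1) / (b + 1)).Prime) := by
    intro p hD hp
    have h3 : ¬ p ∣ b + 1 := fun hd => by
      have h5 := Nat.le_of_dvd (by omega) hd
      omega
    have h4 := special hb hp (by omega) h3
    rw [← h4, Nat.mul_div_cancel _ (by omega)]
  refine ⟨((b + 2 + 1 : ℕ) : ℝ), fun n => ?_⟩
  have e1 : (M S b (1 / ((b : ℝ) + 1)) n : ℝ) ≤ count S b n + ((b + 2 + 1 : ℕ) : ℝ) :=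
    card_le_of_eventually (b + 2)
      (fun p hD hp => ⟨hp.1.odd_of_ne_two (by omega), hp.2.1, (key p hD hp.1).1 hp.2.2⟩) n
  have e2 : (count S b n : ℝ) ≤ M S b (1 / ((b : ℝ) + 1)) n + ((b + 2 + 1 : ℕ) : ℝ) :=
    card_le_of_eventually (b + 2)
      (fun p hD hp => by
        have hpp : p.Prime := Pool.Agent.H473R4.wagstaff_prime_index hb hp.1 hp.2.2
        exact ⟨hpp, hp.2.1, (key p hD hpp).2 hp.2.2⟩) n
  rw [abs_le]
  constructor <;> linarith

lemma pt (b : ℕ) (hb : 2 ≤ b) (S : Set ℕ) : ∀ᵐ β : ℝ, 0 < β →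
    Pool.Agent.TH888.R.Pt (fun p => ⌊β * (b : ℝ) ^ p + 1⌋₊)
      (Real.exp Real.eulerMascheroniConstant / Real.log b) S := by
  have hb1 : (1 : ℝ) < (b : ℝ) := by exact_mod_cast (by omega : 1 < b)
  have hg : ∀ p : ℕ, |(fun _ : ℕ => (1 : ℝ)) p| ≤ 1 * (1 : ℝ) ^ p := by
    intro p
    simp
  exact Pool.Agent.TH888.R.pt_floor (α := (b : ℝ)) (κ := 1) (C := 1)
    (g := fun _ => 1) hb1 zero_le_one hb1 hg
    (Pool.Agent.TH888.R.near_base (b := b) hb zero_le_one hb1 hg) S

/-- all bases at once -/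
lemma all_bases {P : ℝ → ℕ → Prop}
    (h : ∀ b : ℕ, 2 ≤ b → ∀ᵐ β : ℝ, 0 < β → P β b) :
    ∀ᵐ β : ℝ, 0 < β → ∀ b : ℕ, 2 ≤ b → P β b := by
  have h' : ∀ b : ℕ, ∀ᵐ β : ℝ, 2 ≤ b → 0 < β → P β b := by
    intro b
    by_cases hc : 2 ≤ b
    · filter_upwards [h b hc] with β hβ _
      exact hβ
    · exact Eventually.of_forall fun β h1 => absurd h1 hc
  filter_upwards [ae_all_iff.2 h'] with β hβ h0 b hb
  exact hβ b hb h0

/-- **The law for generalized Wagstaff numbers, all bases at once and for sets of exponents.** -/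
theorem result :
    (∀ b : ℕ, 2 ≤ b → ∀ p : ℕ, p.Prime → p ≠ 2 → ¬ p ∣ b + 1 →
      W b (1 / ((b : ℝ) + 1)) p * (b + 1) = b ^ p + 1) ∧
    (∀ b : ℕ, 2 ≤ b → ∀ S : Set ℕ,
      ∃ D : ℝ, ∀ n : ℕ, |(M S b (1 / ((b : ℝ) + 1)) n : ℝ) - count S b n| ≤ D) ∧
    (∀ᵐ β : ℝ, 0 < β → ∀ b : ℕ, 2 ≤ b →
      (fun n : ℕ => (M Set.univ b β n : ℝ) -
        Real.exp Real.eulerMascheroniConstant / Real.log b * Real.log n) =O[atTop]
      (fun n : ℕ => Real.sqrt (Real.log n) * (Real.log (Real.log n)) ^ ((5 : ℝ) / 2))) ∧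
    (∀ S : ℕ → Set ℕ, ∀ᵐ β : ℝ, 0 < β → ∀ b : ℕ, 2 ≤ b → ∀ i : ℕ,
      ({p : ℕ | p.Prime ∧ p ∈ S i ∧ (W b β p).Prime}.Infinite ↔ Tendsto (V (S i)) atTop atTop) ∧
      (Tendsto (V (S i)) atTop atTop →
        (fun n : ℕ => (M (S i) b β n : ℝ) -
          Real.exp Real.eulerMascheroniConstant / Real.log b * V (S i) n) =O[atTop]
        (fun n : ℕ => Real.sqrt (V (S i) n * Real.log (Real.log n)) *
          (Real.log (V (S i) n * Real.log (Real.log n))) ^ 2))) := by
  refine ⟨fun b hb p hp hp2 hpd => special hb hp hp2 hpd,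
    fun b hb S => count_close hb S, all_bases fun b hb => ?_,
    fun S => all_bases fun b hb => ?_⟩
  · filter_upwards [pt b hb Set.univ] with β hβ h0
    obtain ⟨B, hB, h⟩ := (hβ h0).law Pool.Agent.TH888.R.VS_univ_tendsto
    simp only [M_eq _ b h0]
    exact Pool.Agent.TH888.R.bigO_all hB h
  · filter_upwards [ae_all_iff.2 fun i => pt b hb (S i)] with β hβ h0 i
    have hW : {p : ℕ | p.Prime ∧ p ∈ S i ∧ (W b β p).Prime} = {p : ℕ | p.Prime ∧ p ∈ S i ∧
        (Pool.Agent.H305R2.roughPart p ⌊β * (b : ℝ) ^ p + 1⌋₊).Prime} := by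
      ext p
      have e : ⌊β * (b : ℝ) ^ p + 1⌋₊ = ⌊β * (b : ℝ) ^ p⌋₊ + 1 := floor_succ (by positivity)
      rw [Set.mem_ofPred_eq, Set.mem_ofPred_eq, e]
      rfl
    rw [hW]
    simp only [V_eq]
    refine ⟨⟨fun hi => ?_, fun ht => ((hβ i) h0).inf ht⟩, fun ht => ?_⟩
    · by_contra hn
      exact hi (((hβ i) h0).fin hn)
    · obtain ⟨B, hB, h⟩ := ((hβ i) h0).law ht
      simp only [M_eq _ b h0]
      exact Pool.Agent.TH888.R.bigO_set hB ht h

end Pool.Agent.Results.MP_ce8d0c_nt.FixedBases
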