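import Mathlib
import Pool.Agent.W66.LU
import Pool.Agent.H473R4.Count

set_option autoImplicit false

/-!
# Generalized Wagstaff numbers: the law for the last digits of almost every `b`-adic unit

Let `b ≥ 2`. For a sequence `d` of digits in base `b` and a prime `p` let `W b d p` be the
`p`-rough part (the product, with multiplicity, of the prime factors larger than `p`) of
`d 0 + d 1 b + ⋯ + d (p - 1) b ^ (p - 1)`, the residue modulo `b ^ p` of the `b`-adic integer with
the digits `d`. The `b`-adic integer `1 / (b + 1)` has the digits `1, b - 1, 0, b - 1, 0, b - 1, …`,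
and for it `W b d p` is the number `(b ^ p + 1) / (b + 1)` itself, for odd `p` prime to `b + 1`.
Let `M b d n` be the number of primes `p ≤ n` with `W b d p` prime. We prove that for independent
uniform digits (that is, with respect to the Haar measure of the `b`-adic integers) the limit of
`M b d n / log n` exists and equals `e ^ γ / log b` for almost every `d` with `d 0` prime to `b`,
that is, for almost every `b`-adic unit.
-/

namespace Pool.Agent.Results.MP_ce8d0c_nt.LastDigits

open Filter Topology MeasureTheory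

/-- The product, with multiplicity, of the prime factors of `m` that are larger than `p`. -/
def roughPart (p m : ℕ) : ℕ := (m.primeFactorsList.filter (fun r => p < r)).prod

/-- The integer with the last `n` digits `d 0, …, d (n - 1)` in base `b`. -/
def lastDigits (b : ℕ) (d : ℕ → Fin b) (n : ℕ) : ℕ := ∑ i ∈ Finset.range n, (d i : ℕ) * b ^ i

/-- The `p`-rough part of the integer formed by the last `p` digits. -/
def W (b : ℕ) (d : ℕ → Fin b) (p : ℕ) : ℕ := roughPart p (lastDigits b d p)

/-- The number of primes `p ≤ n` for which `W b d p` is prime. -/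
def M (b : ℕ) (d : ℕ → Fin b) (n : ℕ) : ℕ :=
  ((Finset.range (n + 1)).filter (fun p => p.Prime ∧ (W b d p).Prime)).card

/-- Independent digits, uniformly distributed in `{0, …, b - 1}`. -/
noncomputable def digitMeasure (b : ℕ) [NeZero b] : Measure (ℕ → Fin b) :=
  Measure.infinitePi (fun _ : ℕ => ProbabilityTheory.uniformOn (Set.univ : Set (Fin b)))

/-- The digits `1, b - 1, 0, b - 1, 0, b - 1, …` of the `b`-adic integer `1 / (b + 1)`. -/
def wagstaffDigits (b : ℕ) (hb : 2 ≤ b) (i : ℕ) : Fin b :=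
  if i = 0 then ⟨1, hb⟩ else if i % 2 = 1 then ⟨b - 1, by omega⟩ else ⟨0, by omega⟩

lemma lastDigits_wagstaff (b : ℕ) (hb : 2 ≤ b) (k : ℕ) :
    lastDigits b (wagstaffDigits b hb) (2 * k + 1) * (b + 1) = b ^ (2 * k + 1) + 1 := by
  induction k with
  | zero => simp [lastDigits, wagstaffDigits]
  | succ k ih =>
    have e1 : (wagstaffDigits b hb (2 * k + 1) : ℕ) = b - 1 := by
      have h1 : (2 * k + 1) % 2 = 1 := by omega
      simp [wagstaffDigits, h1]
    have e2 : (wagstaffDigits b hb (2 * k + 1 + 1) : ℕ) = 0 := by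
      have h1 : (2 * k + 1 + 1) % 2 = 0 := by omega
      simp [wagstaffDigits, h1]
    have e3 : lastDigits b (wagstaffDigits b hb) (2 * (k + 1) + 1) =
        lastDigits b (wagstaffDigits b hb) (2 * k + 1) + (b - 1) * b ^ (2 * k + 1) := by
      unfold lastDigits
      rw [show 2 * (k + 1) + 1 = 2 * k + 1 + 1 + 1 by ring, Finset.sum_range_succ,
        Finset.sum_range_succ, e1, e2]
      ring
    rw [e3]
    obtain ⟨c, rfl⟩ : ∃ c, b = c + 1 := ⟨b - 1, by omega⟩
    rw [Nat.add_sub_cancel]
    have e4 : (c + 1) ^ (2 * (k + 1) + 1) = (c + 1) ^ (2 * k + 1) * ((c + 1) * (c + 1)) := by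
      rw [show 2 * (k + 1) + 1 = 2 * k + 1 + 1 + 1 by ring, pow_succ, pow_succ]
      ring
    rw [e4]
    linear_combination ih

lemma special {b : ℕ} (hb : 2 ≤ b) {p : ℕ} (hp : p.Prime) (hp2 : p ≠ 2) (hpd : ¬ p ∣ b + 1) :
    W b (wagstaffDigits b hb) p * (b + 1) = b ^ p + 1 := by
  obtain ⟨k, hk⟩ := hp.odd_of_ne_two hp2
  have h1 := lastDigits_wagstaff b hb k
  rw [← hk] at h1
  have h2 : W b (wagstaffDigits b hb) p =
      Pool.Agent.H305R2.roughPart p (lastDigits b (wagstaffDigits b hb) p) := rfl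
  rw [h2, Pool.Agent.W66L.rough_wagstaff hb hp hp2 hpd h1, h1]

/-- **The law for the last digits.** -/
theorem result :
    -- the generalized Wagstaff numbers are the values at the digits of `1 / (b + 1)`
    (∀ (b : ℕ) (hb : 2 ≤ b) (p : ℕ), p.Prime → p ≠ 2 → ¬ p ∣ b + 1 →
      W b (wagstaffDigits b hb) p * (b + 1) = b ^ p + 1) ∧
    (∀ (b : ℕ) (hb : 2 ≤ b), {n : ℕ | Odd n ∧ ((b ^ n + 1) / (b + 1)).Prime}.Infinite ↔
      Tendsto (M b (wagstaffDigits b hb)) atTop atTop) ∧
    -- the law at almost every `b`-adic unit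
    (∀ (b : ℕ) [NeZero b], 2 ≤ b → ∀ᵐ d ∂(digitMeasure b), (d 0 : ℕ).Coprime b →
      Tendsto (fun n : ℕ => (M b d n : ℝ) / Real.log n) atTop
        (𝓝 (Real.exp Real.eulerMascheroniConstant / Real.log b))) := by
  refine ⟨fun b hb p hp hp2 hpd => special hb hp hp2 hpd, fun b hb => ?_, fun b _ hb => ?_⟩
  · have h1 : {n : ℕ | Odd n ∧ ((b ^ n + 1) / (b + 1)).Prime}.Infinite ↔
        {p : ℕ | p.Prime ∧ (p ≠ 2 ∧ ((b ^ p + 1) / (b + 1)).Prime)}.Infinite := by
      have e : {n : ℕ | Odd n ∧ ((b ^ n + 1) / (b + 1)).Prime} =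
          {p : ℕ | p.Prime ∧ (p ≠ 2 ∧ ((b ^ p + 1) / (b + 1)).Prime)} := by
        ext n
        constructor
        · rintro ⟨h1, h2⟩
          refine ⟨Pool.Agent.H473R4.wagstaff_prime_index hb h1 h2, ?_, h2⟩
          rintro rfl
          exact absurd h1 (by decide)
        · rintro ⟨h1, h2, h3⟩
          exact ⟨h1.odd_of_ne_two h2, h3⟩
      rw [e]
    rw [h1]
    refine Pool.Agent.H473R4.tendsto_iff (W b (wagstaffDigits b hb)) _ (b + 2) fun p hp hpb => ?_
    have hp2 : p ≠ 2 := by omega
    have hpd : ¬ p ∣ b + 1 := fun h => by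
      have := Nat.le_of_dvd (by omega) h
      omega
    have h2 : (b ^ p + 1) / (b + 1) = W b (wagstaffDigits b hb) p := by
      rw [← special hb hp hp2 hpd, Nat.mul_div_cancel _ (by omega)]
    rw [h2]
    exact ⟨fun h => ⟨hp2, h⟩, fun h => h.2⟩
  · have h : ∀ᵐ x ∂(Pool.Agent.W66L.digitMeasure b), (Pool.Agent.W66L.dsum b 1 x).Coprime b →
        Tendsto (fun n : ℕ => (Pool.Agent.W66L.cntR (fun p => Pool.Agent.W66L.dsum b p x) n : ℝ) /
          Real.log n) atTop (𝓝 (Real.exp Real.eulerMascheroniConstant / Real.log b)) :=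
      Pool.Agent.W66L.law_all hb (Pool.Agent.W66L.full_digits b)
    change ∀ᵐ d ∂(Pool.Agent.W66L.digitMeasure b), _
    filter_upwards [h] with d hd hu
    have hc : (Pool.Agent.W66L.dsum b 1 d).Coprime b := by
      unfold Pool.Agent.W66L.dsum
      simpa using hu
    refine (hd hc).congr fun n => ?_
    have h4 : Pool.Agent.W66L.cntR (fun p => Pool.Agent.W66L.dsum b p d) n = M b d n := by
      unfold Pool.Agent.W66L.cntR M
      congr 1
      ext p
      simp only [Finset.mem_filter, Finset.mem_Icc, Finset.mem_range]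
      constructor
      · rintro ⟨⟨h5, h6⟩, h7, h8⟩
        exact ⟨by omega, h7, h8⟩
      · rintro ⟨h6, h7, h8⟩
        exact ⟨⟨h7.pos, by omega⟩, h7, h8⟩
    rw [h4]

end Pool.Agent.Results.MP_ce8d0c_nt.LastDigits
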