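import Mathlib
import Pool.Agent.Y719.Mer.Open
import Pool.Agent.H447R2.ML.Spec

set_option autoImplicit false

/-!
# Generalized Wagstaff numbers: real bases, curves of pairs and Lucas sequences

For a real sequence `s` let `W s p` be the `p`-rough part (the product, with multiplicity, of the
prime factors larger than `p`) of `⌊s p⌋`.  Put `Q (x, p) = (x ^ p - (-1) ^ p) / (x + 1)` for real
`x > 1`, and let `U_p (P, Q)` be the Lucas sequence.  For an integer `b ≥ 2` and an odd prime `p` that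
does not divide `b + 1`, the number `W s p` is `(b ^ p + 1) / (b + 1)` for `s = Q (b, ·)` and for
`s = U (b - 1, -b)`.  A sequence obeys the law with constant `κ` for a set `S` if the number of primes
`p ≤ n` with `W s p` prime is `κ log n + O((log n) ^ (1/2) (log log n) ^ (5/2))`, if the same holds
for the primes in `S` with `V S n` (the sum of `log p / p` over the primes `p ≤ n` in `S`) in the
place of `log n` and the error term `O((V L) ^ (1/2) (log (V L)) ^ 2)`, `L = log log n`, in case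
`V S` is unbounded, and if there are infinitely many `p` in `S` with `W s p` prime if and only if
`V S` is unbounded.

We prove, for every set `S`, the law with constant `e ^ γ / log x` for the numbers `Q (x, p)` and
almost every real base `x > 1`; for `A x * x ^ p - B x * c x ^ p` and almost every `x` in `U`, for
every open set `U` of reals larger than `1` and all `C ^ 2` functions `A > 0`, `B`, `c` on `U` with
`|c x| < x`; and for the Lucas sequences `U_p (P, Q)` for every real `Q` and almost every real `P`.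
-/

namespace Pool.Agent.Results.MP_ce8d0c_nt.RealBases

open Filter Topology MeasureTheory Asymptotics

/-- The product, with multiplicity, of the prime factors of `m` that are larger than `p`. -/
def roughPart (p m : ℕ) : ℕ := (m.primeFactorsList.filter (fun r => p < r)).prod

/-- The `p`-rough part of the integer part of the term `s p` of a real sequence. -/
noncomputable def W (s : ℕ → ℝ) (p : ℕ) : ℕ := roughPart p ⌊s p⌋₊

open Classical in
/-- The number of primes `p ≤ n` in the set `S` for which `W s p` is prime. -/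
noncomputable def M (s : ℕ → ℝ) (S : Set ℕ) (n : ℕ) : ℕ :=
  ((Finset.range (n + 1)).filter (fun p => p.Prime ∧ p ∈ S ∧ (W s p).Prime)).card

open Classical in
/-- The sum of `log p / p` over the primes `p ≤ n` in the set `S`. -/
noncomputable def V (S : Set ℕ) (n : ℕ) : ℝ :=
  ∑ p ∈ (Finset.range (n + 1)).filter (fun p => p.Prime ∧ p ∈ S), Real.log p / p

/-- The law with constant `κ`, with error term, for all primes and for the primes in `S`. -/
structure Law (s : ℕ → ℝ) (κ : ℝ) (S : Set ℕ) : Prop where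
  /-- the number of all primes `p ≤ n` with `W s p` prime -/
  all : (fun n : ℕ => (M s Set.univ n : ℝ) - κ * Real.log n) =O[atTop]
    (fun n : ℕ => Real.sqrt (Real.log n) * (Real.log (Real.log n)) ^ ((5 : ℝ) / 2))
  /-- the number of primes `p ≤ n` in `S` with `W s p` prime -/
  sets : Tendsto (V S) atTop atTop → (fun n : ℕ => (M s S n : ℝ) - κ * V S n) =O[atTop]
    (fun n : ℕ => Real.sqrt (V S n * Real.log (Real.log n)) *
      (Real.log (V S n * Real.log (Real.log n))) ^ 2)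
  /-- there are infinitely many in `S` if and only if the weight of `S` is infinite -/
  dichotomy : {p : ℕ | p.Prime ∧ p ∈ S ∧ (W s p).Prime}.Infinite ↔ Tendsto (V S) atTop atTop

/-- The generalized Wagstaff number `(x ^ n - (-1) ^ n) / (x + 1)` in a real base `x`; for odd `n`
it is `(x ^ n + 1) / (x + 1)`. -/
noncomputable def Q (x : ℝ) (n : ℕ) : ℝ := (x ^ n - (-1) ^ n) / (x + 1)

/-- The Lucas sequence `U_n (P, Q)`. -/
def lucasU (P Q : ℝ) : ℕ → ℝ
  | 0 => 0
  | 1 => 1
  | n + 2 => P * lucasU P Q (n + 1) - Q * lucasU P Q n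

lemma V_eq (S : Set ℕ) : V S = Pool.Agent.TH888.R.VS S := by
  classical
  funext n
  unfold V Pool.Agent.TH888.R.VS
  rw [Finset.sum_filter]
  refine Finset.sum_congr rfl fun p _ => ?_
  by_cases h : p.Prime ∧ p ∈ S
  · rw [if_pos h, if_pos ⟨h.2, h.1⟩]
    rfl
  · rw [if_neg h, if_neg fun h1 => h ⟨h1.2, h1.1⟩]

lemma M_eq (s : ℕ → ℝ) (S : Set ℕ) (n : ℕ) :
    M s S n = Pool.Agent.TH888.R.cS S (fun p => ⌊s p⌋₊) n := by
  classical
  unfold M Pool.Agent.TH888.R.cS
  rfl

/-- If `s p = (b ^ p + 1) / (b + 1)` then `W s p` is this number. -/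
lemma W_wagstaff {s : ℕ → ℝ} {b : ℕ} (hb : 2 ≤ b) {p : ℕ} (hp : p.Prime) (hp2 : p ≠ 2)
    (hpd : ¬ p ∣ b + 1) (hs : s p = ((b : ℝ) ^ p - (-1) ^ p) / ((b : ℝ) + 1)) :
    W s p * (b + 1) = b ^ p + 1 := by
  have hodd : Odd p := hp.odd_of_ne_two hp2
  have hr := Pool.Agent.H447R2.ML.rough_quot (a := (b : ℤ)) (b := -1)
    (IsCoprime.neg_right isCoprime_one_right) (by omega) (by omega) hp
    (by
      intro h
      apply hpd
      have : ((p : ℕ) : ℤ) ∣ ((b + 1 : ℕ) : ℤ) := by push_cast; simpa using h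
      exact_mod_cast this) (x := s p) (by
        rw [hs]
        push_cast
        have hne : (b : ℝ) + 1 ≠ 0 := by positivity
        have hne' : (b : ℝ) - -1 ≠ 0 := by rw [sub_neg_eq_add]; exact hne
        field_simp
        ring)
  have hgeom : (∑ i ∈ Finset.range p, (b : ℤ) ^ i * (-1) ^ (p - 1 - i)) * ((b : ℤ) - -1) =
      (b : ℤ) ^ p - (-1) ^ p := (Commute.all (b : ℤ) (-1)).geom_sum₂_mul p
  rw [← hr, hodd.neg_one_pow] at hgeom
  have h4 : ((W s p : ℕ) : ℤ) * ((b : ℤ) + 1) = (b : ℤ) ^ p + 1 := by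
    have h5 : (W s p : ℤ) = (Pool.Agent.H305R2.roughPart p ⌊s p⌋₊ : ℤ) := rfl
    rw [h5]
    linarith
  exact_mod_cast h4

lemma lucas_closed (α β : ℝ) (n : ℕ) :
    lucasU (α + β) (α * β) n * (α - β) = α ^ n - β ^ n := by
  induction n using Nat.twoStepInduction with
  | zero => simp [lucasU]
  | one => simp [lucasU]
  | more n h1 h2 =>
    rw [lucasU]
    calc ((α + β) * lucasU (α + β) (α * β) (n + 1) - α * β * lucasU (α + β) (α * β) n) * (α - β)
        = (α + β) * (lucasU (α + β) (α * β) (n + 1) * (α - β)) -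
            α * β * (lucasU (α + β) (α * β) n * (α - β)) := by ring
      _ = _ := by rw [h1, h2]; ring

lemma lucas_wagstaff (b n : ℕ) :
    lucasU ((b : ℝ) - 1) (-(b : ℝ)) n = ((b : ℝ) ^ n - (-1) ^ n) / ((b : ℝ) + 1) := by
  have h := lucas_closed (b : ℝ) (-1) n
  have hne : (b : ℝ) + 1 ≠ 0 := by positivity
  rw [eq_div_iff hne, ← h]
  have e1 : (b : ℝ) + -1 = (b : ℝ) - 1 := by ring
  have e2 : (b : ℝ) * -1 = -(b : ℝ) := by ring
  have e3 : (b : ℝ) - -1 = (b : ℝ) + 1 := by ring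
  rw [e1, e2, e3]

/-- the law from the library statement -/
lemma law_of {s : ℕ → ℝ} {κ : ℝ} {S : Set ℕ}
    (h1 : Pool.Agent.TH888.R.Pt (fun p => ⌊s p⌋₊) κ Set.univ)
    (h2 : Pool.Agent.TH888.R.Pt (fun p => ⌊s p⌋₊) κ S) : Law s κ S := by
  refine ⟨?_, fun hS => ?_, ?_⟩
  · obtain ⟨B, hB, h⟩ := h1.law Pool.Agent.TH888.R.VS_univ_tendsto
    simp only [M_eq]
    exact Pool.Agent.TH888.R.bigO_all hB h
  · rw [V_eq] at hS ⊢
    obtain ⟨B, hB, h⟩ := h2.law hS
    simp only [M_eq]
    exact Pool.Agent.TH888.R.bigO_set hB hS h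
  · rw [V_eq]
    constructor
    · intro hi
      by_contra hn
      exact hi (h2.fin hn)
    · exact h2.inf

lemma law_open {U : Set ℝ} (hU : IsOpen U) (hU1 : ∀ x ∈ U, 1 < x) {A B c : ℝ → ℝ}
    (hA : ContDiffOn ℝ 2 A U) (hB : ContDiffOn ℝ 2 B U) (hc : ContDiffOn ℝ 2 c U)
    (hpos : ∀ x ∈ U, 0 < A x) (hcx : ∀ x ∈ U, |c x| < x) (S : Set ℕ) :
    ∀ᵐ x : ℝ, x ∈ U → Law (fun p => A x * x ^ p - B x * c x ^ p)
      (Real.exp Real.eulerMascheroniConstant / Real.log x) S := by
  filter_upwards [Pool.Agent.Y719.Mer.pt_open hU hU1 hA hB hc hpos hcx Set.univ,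
    Pool.Agent.Y719.Mer.pt_open hU hU1 hA hB hc hpos hcx S] with x h1 h2 hx
  exact law_of (h1 hx) (h2 hx)

lemma law_lucas (Q : ℝ) (S : Set ℕ) :
    ∀ᵐ P : ℝ, ∀ α : ℝ, max 1 (Real.sqrt |Q|) < α → α + Q / α = P →
      Law (lucasU P Q) (Real.exp Real.eulerMascheroniConstant / Real.log α) S := by
  set U : Set ℝ := Set.Ioi (max 1 (Real.sqrt |Q|)) with hUd
  have hU1 : ∀ x ∈ U, 1 < x := fun x hx => (le_max_left _ _).trans_lt hx
  have hU2 : ∀ x ∈ U, |Q| < x ^ 2 := fun x hx =>
    (Real.sqrt_lt' (by linarith [hU1 x hx])).1 ((le_max_right _ _).trans_lt hx)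
  have hU3 : ∀ x ∈ U, |Q / x| < x := fun x hx => by
    have h1 : 0 < x := by linarith [hU1 x hx]
    rw [abs_div, abs_of_pos h1, div_lt_iff₀ h1, ← sq]
    exact hU2 x hx
  have hU4 : ∀ x ∈ U, 0 < x - Q / x := fun x hx => by
    have := (abs_lt.1 (hU3 x hx)).2
    linarith
  have hne : ∀ x ∈ U, x ≠ 0 := fun x hx => by
    have h1 : 0 < x := by linarith [hU1 x hx]
    exact h1.ne'
  have hc : ContDiffOn ℝ 2 (fun x : ℝ => Q / x) U := contDiffOn_const.div contDiffOn_id hne
  have hA : ContDiffOn ℝ 2 (fun x : ℝ => 1 / (x - Q / x)) U :=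
    contDiffOn_const.div (contDiffOn_id.sub hc) fun x hx => (hU4 x hx).ne'
  have h := law_open isOpen_Ioi hU1 hA hA hc (fun x hx => one_div_pos.2 (hU4 x hx)) hU3 S
  have hd : DifferentiableOn ℝ (fun x : ℝ => x + Q / x) U :=
    (contDiffOn_id.add hc).differentiableOn (by norm_num)
  filter_upwards [Pool.Agent.Y719.Mer.ae_image hd h] with P hP α hα hαP
  have h2 := hP α hα hαP
  have e : (fun p : ℕ => 1 / (α - Q / α) * α ^ p - 1 / (α - Q / α) * (Q / α) ^ p) = lucasU P Q := by
    funext n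
    have h3 := lucas_closed α (Q / α) n
    have e1 : α * (Q / α) = Q := by field_simp [hne α hα]
    rw [e1, hαP] at h3
    rw [← mul_sub, ← h3, mul_comm (lucasU P Q n), ← mul_assoc,
      one_div_mul_cancel (hU4 α hα).ne', one_mul]
  rw [e] at h2
  exact h2

lemma law_real (S : Set ℕ) : ∀ᵐ x : ℝ, 1 < x →
    Law (Q x) (Real.exp Real.eulerMascheroniConstant / Real.log x) S := by
  have hpos : ∀ x ∈ Set.Ioi (1 : ℝ), 0 < x + 1 := fun x hx => by
    have : (1 : ℝ) < x := hx
    linarith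
  have hA : ContDiffOn ℝ 2 (fun x : ℝ => 1 / (x + 1)) (Set.Ioi 1) :=
    contDiffOn_const.div (contDiffOn_id.add contDiffOn_const) fun x hx => (hpos x hx).ne'
  have h := law_open (U := Set.Ioi (1 : ℝ)) isOpen_Ioi (fun x hx => hx) hA hA
    (contDiffOn_const (c := (-1 : ℝ))) (fun x hx => one_div_pos.2 (hpos x hx))
    (fun x hx => by
      rw [abs_neg, abs_one]
      exact hx) S
  filter_upwards [h] with x hx h1
  have h2 := hx h1
  have e : (fun p : ℕ => 1 / (x + 1) * x ^ p - 1 / (x + 1) * (-1) ^ p) = Q x := by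
    funext n
    unfold Q
    ring
  rw [e] at h2
  exact h2

/-- The law, with a square root error term and for all sets of primes, for the generalized Wagstaff
numbers in almost every real base, along every `C ^ 2` curve of pairs, and for Lucas sequences. -/
theorem result :
    (∀ b : ℕ, 2 ≤ b → ∀ p : ℕ, p.Prime → p ≠ 2 → ¬ p ∣ b + 1 → W (Q b) p * (b + 1) = b ^ p + 1) ∧
    (∀ S : Set ℕ, ∀ᵐ x : ℝ, 1 < x →
      Law (Q x) (Real.exp Real.eulerMascheroniConstant / Real.log x) S) ∧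
    (∀ U : Set ℝ, IsOpen U → (∀ x ∈ U, 1 < x) → ∀ A B c : ℝ → ℝ,
      ContDiffOn ℝ 2 A U → ContDiffOn ℝ 2 B U → ContDiffOn ℝ 2 c U →
      (∀ x ∈ U, 0 < A x) → (∀ x ∈ U, |c x| < x) → ∀ S : Set ℕ,
      ∀ᵐ x : ℝ, x ∈ U → Law (fun p => A x * x ^ p - B x * c x ^ p)
        (Real.exp Real.eulerMascheroniConstant / Real.log x) S) ∧
    (∀ b : ℕ, 2 ≤ b → ∀ p : ℕ, p.Prime → p ≠ 2 → ¬ p ∣ b + 1 →
      W (lucasU ((b : ℝ) - 1) (-(b : ℝ))) p * (b + 1) = b ^ p + 1) ∧
    (∀ (Q : ℝ) (S : Set ℕ), ∀ᵐ P : ℝ, ∀ α : ℝ, max 1 (Real.sqrt |Q|) < α → α + Q / α = P →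
      Law (lucasU P Q) (Real.exp Real.eulerMascheroniConstant / Real.log α) S) := by
  refine ⟨fun b hb p hp hp2 hpd => W_wagstaff hb hp hp2 hpd rfl, law_real,
    fun U hU hU1 A B c hA hB hc hpos hcx S => law_open hU hU1 hA hB hc hpos hcx S,
    fun b hb p hp hp2 hpd => W_wagstaff hb hp hp2 hpd (lucas_wagstaff b p), law_lucas⟩

end Pool.Agent.Results.MP_ce8d0c_nt.RealBases
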