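import Mathlib
import Pool.Agent.T2H62.MO.D

set_option autoImplicit false

/-! # The generalized Wagstaff numbers in the sieved random model of the primes

Random primes: every integer `n` without a prime factor `p ≤ A log n` is chosen with probability
`∏_{p ≤ A log n} (1 - 1/p)⁻¹ / log n` (at most `1`), the other integers are not chosen, and the choices are independent
(`A = 1`: Granville's modification of Cramer's model). Almost surely, for all bases `b ≥ 2`, the number of the odd primes
`p ≤ x` such that `(b ^ p + 1) / (b + 1)` is a random prime is asymptotic to `(e ^ γ / log b) log x`, the law predicted by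
Lenstra, Pomerance and Wagstaff. -/

namespace Pool.Agent.Results.MP_ce8d0c_nt.SievedRandomLaw

open Finset Filter Topology MeasureTheory ProbabilityTheory

open scoped Classical in
/-- the probability that `n` is a random prime -/
noncomputable def prob (A : ℝ) (n : ℕ) : ℝ :=
  if ∀ p : ℕ, p.Prime → (p : ℝ) ≤ A * Real.log n → ¬ p ∣ n then
    min 1 ((∏ p ∈ (Icc 1 ⌊A * Real.log n⌋₊).filter Nat.Prime, (1 - (p : ℝ)⁻¹)⁻¹) / Real.log n) else 0

/-- the events `S n` (`n` is a random prime) are independent with the probabilities `prob A n` -/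
def Model (A : ℝ) {Ω : Type*} [MeasurableSpace Ω] (μ : Measure Ω) (S : ℕ → Set Ω) : Prop :=
  IsProbabilityMeasure μ ∧ (∀ n, MeasurableSet (S n)) ∧ iIndepSet S μ ∧
    ∀ n, μ (S n) = ENNReal.ofReal (prob A n)

open scoped Classical in
/-- the number of the odd primes `p ≤ x` with `(b ^ p + 1) / (b + 1)` in `R` -/
noncomputable def count (R : Set ℕ) (b x : ℕ) : ℕ :=
  ((Icc 1 x).filter (fun p => p.Prime ∧ p ≠ 2 ∧ (b ^ p + 1) / (b + 1) ∈ R)).card

theorem result (A : ℝ) (hA : 0 < A) :
    -- the model exists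
    (∃ (μ : Measure (ℕ → Bool)) (S : ℕ → Set (ℕ → Bool)), Model A μ S) ∧
    ∀ (Ω : Type) [MeasurableSpace Ω] (μ : Measure Ω) (S : ℕ → Set Ω), Model A μ S →
      ∀ᵐ ω ∂μ, ∀ R : Set ℕ, R = {n | ω ∈ S n} → ∀ b : ℕ, 2 ≤ b →
        -- the number of the exponents
        Tendsto (fun x : ℕ => (count R b x : ℝ) / Real.log x) atTop
          (𝓝 (Real.exp Real.eulerMascheroniConstant / Real.log b)) ∧
        -- infinitely many exponents
        {n : ℕ | Odd n ∧ (b ^ n + 1) / (b + 1) ∈ R}.Infinite := by
  classical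
  have hprob : ∀ n, prob A n = Pool.Agent.T2H53.GW.pr A n := fun n => rfl
  refine ⟨?_, ?_⟩
  · obtain ⟨μ, S, h1, h2, h3, h4⟩ := Pool.Agent.T2H53.GW.exists_model (prob A)
      (fun n => by rw [hprob]; exact Pool.Agent.T2H53.GW.pr_nonneg A n)
      (fun n => by rw [hprob]; exact Pool.Agent.T2H53.GW.pr_le_one A n)
    exact ⟨μ, S, h1, h2, h3, h4⟩
  · rintro Ω _ μ S ⟨hμ, hm, hi, hp⟩
    have hp' : ∀ n, μ.real (S n) = Pool.Agent.T2H53.GW.pr A n := fun n => by
      rw [measureReal_def, hp n, ENNReal.toReal_ofReal (by rw [hprob]; exact Pool.Agent.T2H53.GW.pr_nonneg A n), hprob]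
    filter_upwards [Pool.Agent.T2H62.MO.count_all A hA hm hi hp'] with ω hω R hR b hb
    have h1 := hω b hb
    have hcount : ∀ x : ℕ, Pool.Agent.T2H62.MD.cnt (Pool.Agent.T2H62.MO.IX x)
        (fun i : ℕ => S (Pool.Agent.T2H62.MO.Q b (2 * i + 3))) ω = (count R b x : ℝ) := by
      intro x
      have h2 := Pool.Agent.T2H62.MO.reindex
        (fun p => (S (Pool.Agent.T2H62.MO.Q b p)).indicator (fun _ => (1 : ℝ)) ω) x
      unfold Pool.Agent.T2H62.MD.cnt
      rw [h2]
      unfold count
      rw [card_filter]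
      push_cast
      have h3 : ∑ p ∈ Icc 1 x, (if p.Prime ∧ p ≠ 2 ∧ (b ^ p + 1) / (b + 1) ∈ R then (1 : ℝ) else 0) =
          ∑ p ∈ Ioc 1 x, (if p.Prime ∧ p ≠ 2 ∧ (b ^ p + 1) / (b + 1) ∈ R then (1 : ℝ) else 0) := by
        symm
        apply sum_subset (fun p hp => mem_Icc.2 ⟨(mem_Ioc.1 hp).1.le, (mem_Ioc.1 hp).2⟩)
        intro p hp1 hp2
        rw [if_neg]
        rintro ⟨h4, -⟩
        exact hp2 (mem_Ioc.2 ⟨h4.one_lt, (mem_Icc.1 hp1).2⟩)
      rw [h3]
      refine sum_congr rfl fun p _ => ?_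
      by_cases hpp : p.Prime
      · by_cases h2p : p = 2
        · rw [if_neg (by omega), if_neg (fun h => h.2.1 h2p)]
        · have h5 : 2 < p := by have := hpp.two_le; omega
          rw [if_pos ⟨hpp, h5⟩]
          by_cases h6 : (b ^ p + 1) / (b + 1) ∈ R
          · rw [if_pos ⟨hpp, h2p, h6⟩]
            exact Set.indicator_of_mem (by rw [hR] at h6; exact h6) _
          · rw [if_neg (fun h => h6 h.2.2)]
            exact Set.indicator_of_notMem (fun h => h6 (by rw [hR]; exact h)) _
      · rw [if_neg (fun h => hpp h.1), if_neg (fun h => hpp h.1)]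
    simp only [hcount] at h1
    have hc := Pool.Agent.T2H62.MO.cc_pos hb
    refine ⟨h1, ?_⟩
    intro hfin
    have h2 : ∀ x : ℕ, count R b x ≤ hfin.toFinset.card := by
      intro x
      unfold count
      apply card_le_card
      intro p hp
      rw [mem_filter] at hp
      rw [Set.Finite.mem_toFinset]
      exact ⟨hp.2.1.odd_of_ne_two hp.2.2.1, hp.2.2.2⟩
    have hlog : Tendsto (fun n : ℕ => Real.log (n : ℝ)) atTop atTop :=
      Real.tendsto_log_atTop.comp tendsto_natCast_atTop_atTop
    have h3 : Tendsto (fun x : ℕ => (count R b x : ℝ) / Real.log x) atTop (𝓝 0) := by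
      have h4 : Tendsto (fun x : ℕ => (hfin.toFinset.card : ℝ) / Real.log x) atTop (𝓝 0) :=
        tendsto_const_nhds.div_atTop hlog
      refine tendsto_of_tendsto_of_tendsto_of_le_of_le' tendsto_const_nhds h4 ?_ ?_
      · filter_upwards [hlog.eventually_ge_atTop 0] with x hx
        positivity
      · filter_upwards [hlog.eventually_gt_atTop 0] with x hx
        exact div_le_div_of_nonneg_right (by exact_mod_cast h2 x) hx.le
    have h4 := tendsto_nhds_unique h1 h3
    linarith

end Pool.Agent.Results.MP_ce8d0c_nt.SievedRandomLaw
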